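import Pool.Agent.H53.NFN.Cst
import Pool.Agent.H53.KNW.Ends
import Pool.Agent.H53.KNW.Fin
import Pool.Agent.H53.TFC.Cnt
import Pool.Agent.H53.TFC.CntW
import Pool.Agent.H96.GEO.Tf5
import Pool.Agent.H96.GEO.Geo5
import Pool.Agent.H16.GEO.Cur
import Pool.Agent.H15.LVB.Fin
import Pool.Agent.H32.KNS.StaC

/-!
# The machine

`potBs`: the class of the bodies of the space of functions has all the properties of `PotBsStmt`, if
the live theorem and the boxes (`TdBoxStmt`, with labels of thickness `2 ^ (-cA k)`) are given;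
`bn_of_box`: the bound by the cost of the times.
-/

set_option autoImplicit false

namespace Pool.NFN

open Finset Real
open Pool.GC
open Pool.LAT (cN)
open Pool.KNB (nJ FillStmt)
open Pool.KNH (LA LB GS ndc)

variable {m E : ℕ}

/-- The constants of the boxes. -/
theorem exists_bp (m E Cg CT : ℕ) : ∃ (b : BP) (g : ℕ), b.g₀ + CT ≤ b.c₄ ∧ b.c₄ + CT ≤ b.a₀ ∧
    b.c₂ + CT ≤ b.c₁ ∧ CT ≤ b.cA ∧ 2 * nJ m E + Cg + 4 ≤ b.c₄ ∧
    ∀ P : Par m E, Cg + 2 ≤ P.top → 2 * m + 4 * Cg + 4 ≤ P.cs → Cst P b Cg g := by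
  obtain ⟨g₀, hg₀⟩ : ∃ x, x = 3 * nJ m E + Cg + 5 := ⟨_, rfl⟩
  obtain ⟨c₄, hc₄⟩ : ∃ x, x = g₀ + CT := ⟨_, rfl⟩
  obtain ⟨a₀, ha₀⟩ : ∃ x, x = c₄ + CT := ⟨_, rfl⟩
  obtain ⟨g, hg⟩ : ∃ x, x = a₀ + 4 * nJ m E + 8 := ⟨_, rfl⟩
  obtain ⟨c₂, hc₂⟩ : ∃ x, x = 4 * nJ m E + 6 := ⟨_, rfl⟩
  obtain ⟨c₁, hc₁⟩ : ∃ x, x = c₂ + CT := ⟨_, rfl⟩
  obtain ⟨A₀, hA₀⟩ : ∃ x, x = Cg + 1 + 2 * dD m E := ⟨_, rfl⟩
  obtain ⟨X₁, hX₁⟩ : ∃ x, x = 8 * Cg + m * (1 + A₀ + cN (nJ m E)) +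
    nJ m E * (cN (nJ m E) + 2) + A₀ + g + 10 := ⟨_, rfl⟩
  obtain ⟨X₂, hX₂⟩ : ∃ x, x = 20 * Cg + (m + 1) * (nJ m E + 1) *
    (2 * cN (nJ m E) + 2 * A₀ + 10) + g + c₁ + c₂ + m * c₄ + 20 := ⟨_, rfl⟩
  refine ⟨⟨A₀, X₁ + X₂, m * nJ m E + 2 * m + nJ m E + 4, a₀, c₁, c₂, g₀,
    2 * m + 3 * Cg + m * g + 4, c₄, 0, CT⟩, g, hc₄.ge, ha₀.ge, hc₁.ge, le_rfl, ?_, ?_⟩
  · show 2 * nJ m E + Cg + 4 ≤ c₄
    omega
  · intro P htop hcs
    exact {
      A₀ := hA₀.ge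
      A₁ := by
        show _ ≤ X₁ + X₂
        rw [hX₁]
        exact Nat.le_add_right _ _
      A₁' := by
        show _ ≤ X₁ + X₂
        rw [hX₂]
        exact Nat.le_add_left _ _
      A₂ := by
        show m + nJ m E + 2 ≤ m * nJ m E + 2 * m + nJ m E + 4
        have : 0 ≤ m * nJ m E := Nat.zero_le _
        omega
      A₂' := le_rfl
      g' := hg.ge
      gg := by
        show 2 * nJ m E + Cg + 5 ≤ g₀
        omega
      gfl := by
        show 3 * nJ m E + 3 ≤ g₀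
        omega
      c₄ := by
        show 2 * nJ m E + Cg + 4 ≤ c₄
        omega
      top := by omega
      top' := htop
      c₂ := hc₂.ge
      c₃ := le_rfl
      c₅ := rfl
      cs := hcs
      g := by
        show 2 * nJ m E + Cg + 5 ≤ g
        omega }

theorem cnt1_mono {P : Par m E} {b : BP} {κ C C' : ℝ} (h : Cnt1 P b κ C) (hC : C ≤ C') :
    Cnt1 P b κ C' := by
  intro J w l hl hw F c k a s t₀ b₀ b₁ hp
  refine (h J w l hl hw F c k a s t₀ b₀ b₁ hp).trans ?_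
  have : (0 : ℝ) ≤ ((P.gs b).rg s : ℝ) := Nat.cast_nonneg _
  have := mul_le_mul_of_nonneg_right hC
    (Real.log_nonneg (by linarith only : (1 : ℝ) ≤ 2 + ((P.gs b).rg s : ℝ)))
  linarith only [this]

open Pool.Agent.H49.Ent Pool.Agent.H32.Dense in
theorem cnt0_mono {P : Par m E} {b : BP} {κ C C' : ℝ} (h : Cnt0 P b κ C) (hC : C ≤ C') :
    Cnt0 P b κ C' := by
  intro J w l hl hw F c k a s t₀ b₀ b₁ hp
  refine (h J w l hl hw F c k a s t₀ b₀ b₁ hp).trans ?_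
  have : (0 : ℝ) ≤ ((P.gs b).rg s : ℝ) := Nat.cast_nonneg _
  have h1 := mul_le_mul_of_nonneg_right hC
    (Real.log_nonneg (by linarith only : (1 : ℝ) ≤ 2 + ((P.gs b).rg s : ℝ)))
  have h2 : (0 : ℝ) ≤ l + Ex F.p (fun ω => (P.cls.age (b₀ ω) : ℝ)) :=
    add_nonneg (Nat.cast_nonneg _) (Finset.sum_nonneg fun ω _ =>
      mul_nonneg (F.isLaw.nonneg ω) (Nat.cast_nonneg _))
  have h3 := mul_le_mul_of_nonneg_right hC h2
  linarith only [h1, h3]

/-- **The class of the bodies of the space of functions.** -/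
theorem potBs (hm : 1 ≤ m) (hE : 1 ≤ E) (hT : TdBoxStmt m E) (hV : ∀ M, FillStmt M) :
    Pool.KNW.PotBsStmt m := by
  obtain ⟨Cg, hCg⟩ : ∃ x, x = cCur m E := ⟨_, rfl⟩
  have hC : Cur m E Cg := cur m E hCg.ge
  have hW : CntW m E := Pool.CW.cntW hm hE
  obtain ⟨CB, hbox⟩ := Pool.LVB.box_cls hm hE hT hW hV
  obtain ⟨CT, hT⟩ := hT
  obtain ⟨CS, hsta⟩ := Pool.KNW.staCls m E hE
  obtain ⟨Mg, hMg0, hgeo⟩ := geo hC
  obtain ⟨b, g, hb₁, hb₂, hb₃, hbA, hb₄, hCst⟩ := exists_bp m E Cg CT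
  obtain ⟨X₁, hX₁, hcnt1⟩ := cnt_one hC hW b.c₄ hb₄
  obtain ⟨X₀, hX₀, hcnt0⟩ := cnt_zero hC hW b.c₄ hb₄
  have hl2 : 0 < Real.log 2 := Real.log_pos (by norm_num)
  obtain ⟨cs, hcs⟩ : ∃ x, x = 2 * m + 4 * Cg + 4 := ⟨_, rfl⟩
  obtain ⟨c', hc'⟩ : ∃ x : ℝ, x = Real.log 2 * (g + CB + nJ m E) := ⟨_, rfl⟩
  have hc'0 : 0 ≤ c' := by rw [hc']; positivity
  obtain ⟨cc, hcc⟩ : ∃ x : ℝ, x = 4 * (nJ m E + 2) * (2 * (8 * cs + 3 * nJ m E + b.A₀ + 16) + 1) :=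
    ⟨_, rfl⟩
  have hcc0 : 0 ≤ cc := by rw [hcc]; positivity
  obtain ⟨C, hCd⟩ : ∃ x : ℝ, x = (cTF m E Cg b : ℝ) + c' + cc + Mg + X₁ + X₀ := ⟨_, rfl⟩
  have hTF : (0 : ℝ) ≤ (cTF m E Cg b : ℝ) := Nat.cast_nonneg _
  have hC0 : 0 ≤ C := by linarith only [hMg0, hX₁, hX₀, hc'0, hcc0, hCd]
  intro δ hδ
  obtain ⟨σ, hσ⟩ : ∃ x : ℝ, x = δ / 4 := ⟨_, rfl⟩
  have hσ0 : 0 < σ := by linarith only [hδ, hσ]
  obtain ⟨ρf, hρf⟩ : ∃ x : ℝ, x = σ / (8 * (m + 3)) := ⟨_, rfl⟩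
  have hρf0 : 0 < ρf := by rw [hρf]; positivity
  have hρfe : 8 * (m + 3) * ρf = σ := by
    rw [hρf]
    field_simp
  obtain ⟨ρ₁, hρ₁⟩ : ∃ x : ℝ, x = min (1 / 4) (ρf / (2 * (12 * C + 6))) := ⟨_, rfl⟩
  have hρ₁0 : 0 < ρ₁ := by rw [hρ₁]; exact lt_min (by norm_num) (by positivity)
  exact by
   have hρ₁4 : ρ₁ ≤ 1 / 4 := by rw [hρ₁]; exact min_le_left _ _
   have hρ₁f : (12 * C + 6) * ρ₁ ≤ ρf / 2 := by
     have h1 : ρ₁ ≤ ρf / (2 * (12 * C + 6)) := by rw [hρ₁]; exact min_le_right _ _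
     rw [le_div_iff₀ (by positivity)] at h1
     linarith only [h1]
   obtain ⟨n₀, hn₀⟩ : ∃ x : ℝ, x = (((m + 1) * E * m : ℕ) : ℝ) := ⟨_, rfl⟩
   have hn₀0 : 0 ≤ n₀ := by rw [hn₀]; positivity
   obtain ⟨u, hu⟩ : ∃ x : ℝ, x = min (min 1 (ρf / (4 * C + 4)))
     (min (1 / (n₀ + 1)) (δ / ((n₀ + 1) * ((m + 2) * Real.log 2)))) := ⟨_, rfl⟩
   have hu0 : 0 < u := by
     rw [hu]
     exact lt_min (lt_min one_pos (by positivity)) (lt_min (by positivity) (by positivity))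
   have hu1 : u ≤ 1 := by rw [hu]; exact (min_le_left _ _).trans (min_le_left _ _)
   have huf : 2 * C * u ≤ ρf / 2 := by
     have h1 : u ≤ ρf / (4 * C + 4) := by rw [hu]; exact (min_le_left _ _).trans (min_le_right _ _)
     rw [le_div_iff₀ (by positivity)] at h1
     linarith only [hu0, h1]
   have hun : u * (n₀ + 1) ≤ 1 := by
     have h1 : u ≤ 1 / (n₀ + 1) := by rw [hu]; exact (min_le_right _ _).trans (min_le_left _ _)
     rwa [le_div_iff₀ (by positivity)] at h1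
   have hud : u * ((n₀ + 1) * ((m + 2) * Real.log 2)) ≤ δ := by
     have h1 : u ≤ δ / ((n₀ + 1) * ((m + 2) * Real.log 2)) := by
       rw [hu]
       exact (min_le_right _ _).trans (min_le_right _ _)
     rwa [le_div_iff₀ (by positivity)] at h1
   obtain ⟨M, hM0, hM1, -, hMs⟩ := exists_weights (nJ m E) hρ₁0
   have hMn : 0 ≤ ∑ i, M i := Finset.sum_nonneg fun i _ => (hM0 i).le
   have hndc : 0 ≤ ndc m δ := by unfold ndc; positivity
   obtain ⟨top, htop⟩ : ∃ x : ℕ, x = Cg + 2 + CT + CB + CS := ⟨_, rfl⟩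
   obtain ⟨cd, hcd⟩ : ∃ x : ℝ, x = 1 + 32 * ((m + 1) * (CB + 1)) * ndc m δ +
     8 * (KR m E b : ℝ) * (ndc m δ + top + 2) := ⟨_, rfl⟩
   exact by
    have hcd1 : 0 ≤ 32 * (((m : ℝ) + 1) * (CB + 1)) * ndc m δ := by positivity
    have hcd2 : 0 ≤ 8 * (KR m E b : ℝ) * (ndc m δ + top + 2) := by positivity
    have hcd0 : 0 ≤ cd := by linarith only [hρ₁0, hρ₁4, hcd, hcd1, hcd2]
    obtain ⟨P, hPom, hPM, hPtop, hPcd, hPcs, hPcH⟩ : ∃ P : Par m E, P.om = u ∧ P.M = M ∧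
        P.top = top ∧ P.cd = cd ∧ P.cs = cs ∧ P.cH = c' * u :=
      ⟨⟨u, M, top, fun J => ⌈cd * (J : ℝ) ^ 2⌉₊, cd, cs, c' * u, hu0.le, fun i => (hM0 i).le, hcd0,
        by omega, fun J _ => Nat.le_ceil _⟩, rfl, rfl, rfl, rfl, rfl, rfl⟩
    have hPC : Cst P b Cg g := hCst P (by omega) (by omega)
    have hvol : P.om * (Real.log 2 * ((∑ i, P.M i) * (g + CB + nJ m E))) ≤ P.cH := by
      rw [hPom, hPM, hPcH, hc']
      have h1 : (∑ i, M i) * (g + CB + nJ m E) ≤ 1 * (g + CB + nJ m E) :=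
        mul_le_mul_of_nonneg_right hM1 (by positivity)
      have h2 := mul_le_mul_of_nonneg_left (mul_le_mul_of_nonneg_left h1 hl2.le) hu0.le
      linarith only [h2]
    have hvol' : P.om * (Real.log 2 * ((∑ i, P.M i) * (g + nJ m E))) ≤ P.cH := by
      refine le_trans ?_ hvol
      have h0 : (0 : ℝ) ≤ CB := Nat.cast_nonneg _
      refine mul_le_mul_of_nonneg_left (mul_le_mul_of_nonneg_left
        (mul_le_mul_of_nonneg_left (by linarith only) ?_) hl2.le) P.om_nonneg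
      rw [hPM]
      exact hMn
    have hcode : codeC P b = cc := by
      unfold codeC
      rw [hPcs, hcc]
    obtain ⟨a', ha'⟩ : ∃ x : ℝ, x = 1 + (b.A₁ : ℝ) + ∑ j, (b.A₂ : ℝ) / (u * (Real.log 2 * M j)) :=
      ⟨_, rfl⟩
    have hq : ∀ j, 0 < u * (Real.log 2 * M j) := fun j => mul_pos hu0 (mul_pos hl2 (hM0 j))
    have hS0 : 0 ≤ ∑ j, (b.A₂ : ℝ) / (u * (Real.log 2 * M j)) :=
      Finset.sum_nonneg fun j _ => div_nonneg (Nat.cast_nonneg _) (hq j).le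
    have hA₁0 : (0 : ℝ) ≤ b.A₁ := Nat.cast_nonneg _
    exact by
     have ha1 : 1 ≤ a' := by linarith only [ha', hS0]
     have hWts : Wts P b c' a' ρ₁ u := by
       refine ⟨fun j => ?_, ?_, ?_, by linarith only [hρ₁0, hρ₁4, ha', hS0], fun j => ?_⟩
       · rw [hPM]
         refine le_trans ?_ (hMs j)
         have e : (Ioi j : Finset (Fin (nJ m E))) = univ.filter (fun k => j < k) := by
           ext k
           simp
         rw [e]
         refine Finset.sum_le_sum fun k _ => mul_le_mul_of_nonneg_right ?_ (hM0 k).le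
         linarith only [hρ₁0, hρ₁4]
       · rw [hPom, hPM]
         calc u * ∑ i, M i ≤ u * 1 := mul_le_mul_of_nonneg_left hM1 hu0.le
           _ = u := mul_one u
       · exact hPcH.le
       · rw [hPom, hPM]
         have h1 : (b.A₂ : ℝ) / (u * (Real.log 2 * M j)) ≤ a' := by
           have h2 := Finset.single_le_sum (f := fun j => (b.A₂ : ℝ) / (u * (Real.log 2 * M j)))
             (fun i _ => div_nonneg (Nat.cast_nonneg _) (hq i).le) (Finset.mem_univ j)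
           linarith only [hρ₁0, hρ₁4, ha', h2]
         rwa [div_le_iff₀ (hq j)] at h1
     have hB : ∀ ε : ℝ, 0 < ε → ∃ k₀ : ℕ, (P.td b δ).Box ε k₀ :=
       hT P b δ hb₁ hb₂ hb₃ hbA (by omega)
     obtain ⟨l₀, hturn⟩ := turn_cls hC hPC (κ := δ) (by
         unfold Cdc
         rw [hPcd, hPtop]
         linarith only [hρ₁0, hρ₁4, hcd, hcd1]) hvol' hWts hc'0 (C := C) (by linarith only [hMg0, hX₁, hX₀, hcc0, hCd])
       (hgeo P b g C hPC (by rw [hcode]; linarith only [hMg0, hX₁, hX₀, hc'0, hCd]) (by linarith only [hX₁, hX₀, hc'0, hcc0, hCd]) hvol')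
       (cnt1_mono (fun J w l hl hw F c k a s t₀ b₀ b₁ hp =>
         hcnt1 P b g δ hPC rfl J w l hl hw F c k a s t₀ b₀ b₁ hp) (by linarith only [hMg0, hX₀, hc'0, hcc0, hCd]))
       (cnt0_mono (fun J w l hl hw F c k a s t₀ b₀ b₁ hp =>
         hcnt0 P b g δ hPC rfl J w l hl hw F c k a s t₀ b₀ b₁ hp) (by linarith only [hMg0, hX₁, hc'0, hcc0, hCd]))
       hB ha1 hρ₁0.le hρ₁4 hu0.le hu1 hσ0.le
     exact by
      have hCf : C ≤ 4 * a' * C := by nlinarith only [hMg0, hX₁, hX₀, hc'0, hcc, hCd, hρ₁0, hρ₁4, ha', hS0, hcc0]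
      have hends : Pool.KNW.EndsNs m δ P.cls.sys := by
        refine Pool.KNW.ends_cls hm hE P hδ.le ?_ ?_ (hsta P (by omega) (by rw [hPcd]; linarith only [hcd, hcd1, hcd2]) δ hδ.le)
        · rw [hPom, hPM, ← hn₀]
          have h1 : u * (∑ i, M i) ≤ u * 1 := mul_le_mul_of_nonneg_left hM1 hu0.le
          have h2 := mul_le_mul_of_nonneg_right h1 hn₀0
          linarith only [hu0, hun, h2]
        · rw [hPom, hPM, ← hn₀]
          have h1 : u * (∑ i, M i) ≤ u * 1 := mul_le_mul_of_nonneg_left hM1 hu0.le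
          have h2 := mul_le_mul_of_nonneg_right h1 hn₀0
          have hp : 0 ≤ ((m : ℝ) + 2) * Real.log 2 := by positivity
          have h3 := mul_le_mul_of_nonneg_right h2 hp
          have h4 : u * 1 * n₀ * (((m : ℝ) + 2) * Real.log 2) ≤
              u * ((n₀ + 1) * ((m + 2) * Real.log 2)) := by
            have h5 : 0 ≤ u * (((m : ℝ) + 2) * Real.log 2) := by positivity
            linarith only [h5]
          linarith only [hud, h3, h4]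
      refine ⟨δ, σ, (12 * C + 6) * ρ₁ + 2 * C * u, hσ0, by linarith only [hσ, hσ0], le_rfl, by positivity, ?_,
        P.cls, P.gs b, a' * (12 * C + 8), 4 * a' * C, 1 / (32 * (a' * ((b.cA + 1 : ℕ) : ℝ))), g, l₀,
    by positivity,
        by positivity, by positivity, ?_, hturn, ?_, hends⟩
      · have h1 : (12 * C + 6) * ρ₁ + 2 * C * u ≤ ρf := by linarith only [hρ₁f, huf]
        calc 8 * ((m : ℝ) + 3) * ((12 * C + 6) * ρ₁ + 2 * C * u) ≤ 8 * (m + 3) * ρf :=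
              mul_le_mul_of_nonneg_left h1 (by positivity)
          _ = σ := hρfe
      · exact hgeo P b g _ hPC (by rw [hcode]; linarith only [hMg0, hX₁, hX₀, hc'0, hCd, hCf]) (by linarith only [hX₁, hX₀, hc'0, hcc0, hCd, hCf]) hvol'
      · exact hbox P δ g hδ.le (by rw [hPcd]; linarith only [hcd, hcd2]) (by omega) hvol

/-- **The machine.** The live theorem and the boxes give the bound by the cost of the times. -/
theorem bn_of_box (hm : 1 ≤ m) (hE : 1 ≤ E) (hT : TdBoxStmt m E) (hV : ∀ M, FillStmt M) :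
    Pool.KN.BNStmt m :=
  Pool.KNW.bn_of_potBs (potBs hm hE hT hV)

end Pool.NFN
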