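import Pool.Agent.H96.GEO.Gs

/-!
# The choice of the constants

`bpc`: the constants of the boxes, from the constant `CT` of the boxes and the constant `Cg` of the
curves. `exists_weights`: rapidly decreasing weights.
-/

set_option autoImplicit false

namespace Pool.NFN

open Finset Real
open Pool.GC
open Pool.KNB (nJ)

/-- **Rapidly decreasing weights.** -/
theorem exists_weights (N : ℕ) {ρ : ℝ} (hρ : 0 < ρ) : ∃ M : Fin N → ℝ, (∀ i, 0 < M i) ∧
    ∑ i, M i ≤ 1 ∧ (∀ i j, i ≤ j → M j ≤ M i) ∧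
    ∀ j : Fin N, ∑ k ∈ univ.filter (fun k : Fin N => j < k), (((k : ℕ) : ℝ) + 1) * M k ≤
      ρ * M j := by
  obtain ⟨q, hq⟩ : ∃ q : ℝ, q = ρ / ((N + 1) ^ 2 * (1 + ρ)) := ⟨_, rfl⟩
  have hN : (0 : ℝ) ≤ N := Nat.cast_nonneg N
  have hq0 : 0 < q := by rw [hq]; positivity
  have hqe : (N + 1 : ℝ) ^ 2 * q = ρ / (1 + ρ) := by
    rw [hq]
    field_simp
  have hq1 : (N + 1 : ℝ) ^ 2 * q ≤ 1 := by
    rw [hqe, div_le_one (by positivity)]
    linarith
  have hqρ : (N + 1 : ℝ) ^ 2 * q ≤ ρ := by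
    rw [hqe, div_le_iff₀ (by positivity)]
    nlinarith
  have hqN : (N + 1 : ℝ) ≤ (N + 1) ^ 2 := by nlinarith
  have hq2 : q ≤ 1 := by nlinarith
  refine ⟨fun i => q ^ ((i : ℕ) + 1), fun i => by positivity, ?_, ?_, ?_⟩
  · calc ∑ i : Fin N, q ^ ((i : ℕ) + 1) ≤ ∑ _i : Fin N, q := by
          refine Finset.sum_le_sum fun i _ => ?_
          calc q ^ ((i : ℕ) + 1) = q ^ (i : ℕ) * q := pow_succ _ _
            _ ≤ 1 * q := mul_le_mul_of_nonneg_right (pow_le_one₀ hq0.le hq2) hq0.le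
            _ = q := one_mul q
      _ = N * q := by rw [Finset.sum_const, Finset.card_univ, Fintype.card_fin, nsmul_eq_mul]
      _ ≤ 1 := by nlinarith
  · intro i j hij
    exact pow_le_pow_of_le_one hq0.le hq2 (Nat.succ_le_succ hij)
  · intro j
    calc ∑ k ∈ univ.filter (fun k : Fin N => j < k), (((k : ℕ) : ℝ) + 1) * q ^ ((k : ℕ) + 1) ≤
        ∑ _k ∈ univ.filter (fun k : Fin N => j < k), ((N : ℝ) * (q * q ^ ((j : ℕ) + 1))) := by
          refine Finset.sum_le_sum fun k hk => ?_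
          have hjk : j < k := (Finset.mem_filter.1 hk).2
          have h1 : ((k : ℕ) : ℝ) + 1 ≤ N := by exact_mod_cast k.2
          have h2 : q ^ ((k : ℕ) + 1) ≤ q * q ^ ((j : ℕ) + 1) := by
            rw [← pow_succ']
            exact pow_le_pow_of_le_one hq0.le hq2 (Nat.succ_le_succ hjk)
          exact mul_le_mul h1 h2 (by positivity) hN
      _ ≤ ∑ _k : Fin N, ((N : ℝ) * (q * q ^ ((j : ℕ) + 1))) :=
          Finset.sum_le_sum_of_subset_of_nonneg (Finset.filter_subset _ _)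
            fun _ _ _ => by positivity
      _ = (N * N * q) * q ^ ((j : ℕ) + 1) := by
          rw [Finset.sum_const, Finset.card_univ, Fintype.card_fin, nsmul_eq_mul]
          ring
      _ ≤ ρ * q ^ ((j : ℕ) + 1) := by
          refine mul_le_mul_of_nonneg_right ?_ (by positivity)
          refine le_trans ?_ hqρ
          refine mul_le_mul_of_nonneg_right ?_ hq0.le
          nlinarith

end Pool.NFN
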